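import Mathlib

set_option autoImplicit false

/-!
# Random selection with deletions, and families of sets with small intersections
-/

namespace Pool.Agent.H726.LA

open Finset

/-- counting functions by one coordinate -/
theorem cnt {α : Type} [Fintype α] [DecidableEq α] (M : ℕ) (j : Fin M)
    (P : (Fin M → α) → Prop) [DecidablePred P] (c : ℕ)
    (h : ∀ f : Fin M → α, (univ.filter fun x : α => P (Function.update f j x)).card ≤ c) :
    Fintype.card α * (univ.filter P).card ≤ c * Fintype.card α ^ M := by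
  classical
  let e : ((Fin M → α) × α) ≃ ((Fin M → α) × α) :=
    { toFun := fun p => (Function.update p.1 j p.2, p.1 j)
      invFun := fun p => (Function.update p.1 j p.2, p.1 j)
      left_inv := by rintro ⟨f, x⟩; simp
      right_inv := by rintro ⟨f, x⟩; simp }
  have h1 : ∑ p : (Fin M → α) × α, (if P (Function.update p.1 j p.2) then 1 else 0) =
      ∑ p : (Fin M → α) × α, (if P p.1 then 1 else 0) :=
    Fintype.sum_equiv e _ _ fun p => rfl
  have h2 : ∑ p : (Fin M → α) × α, (if P p.1 then 1 else 0) =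
      Fintype.card α * (univ.filter P).card := by
    rw [Fintype.sum_prod_type, card_filter, Finset.mul_sum]
    refine sum_congr rfl fun f _ => ?_
    show (∑ _y : α, if P f then 1 else 0) = _
    rw [sum_const, card_univ, smul_eq_mul]
  have h3 : ∑ p : (Fin M → α) × α, (if P (Function.update p.1 j p.2) then 1 else 0) ≤
      c * Fintype.card α ^ M := by
    rw [Fintype.sum_prod_type]
    calc ∑ f : Fin M → α, ∑ x : α, (if P (Function.update f j x) then 1 else 0)
        ≤ ∑ _f : Fin M → α, c := by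
          refine sum_le_sum fun f _ => ?_
          rw [← card_filter]
          exact h f
      _ = c * Fintype.card α ^ M := by
          rw [sum_const, card_univ, smul_eq_mul, Fintype.card_fun, Fintype.card_fin, mul_comm]
  rw [← h2, ← h1]
  exact h3

theorem select {α : Type} [Fintype α] [DecidableEq α] (ar : α → α → α → ℝ) (c M : ℕ)
    (s1 : ∀ a b x, ar a b x = ar b a x) (s2 : ∀ a b x, ar a b x = ar a x b)
    (hα : 0 < Fintype.card α)
    (hc : ∀ a b : α, a ≠ b → ∀ t : ℝ,
      (univ.filter fun x : α => x ≠ a ∧ x ≠ b ∧ ar a b x = t).card ≤ c)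
    (hM : 2 * (M ^ 6 * c + M ^ 2) ≤ M * Fintype.card α) :
    ∃ S : Finset α, M ≤ 2 * S.card ∧ ∀ a ∈ S, ∀ b ∈ S, ∀ x ∈ S, ∀ a' ∈ S, ∀ b' ∈ S, ∀ x' ∈ S,
      a ≠ b → a ≠ x → b ≠ x → a' ≠ b' → a' ≠ x' → b' ≠ x' → ar a b x = ar a' b' x' →
      ({a, b, x} : Finset α) = {a', b', x'} := by
  classical
  -- bad tuples and bad pairs
  let Pt : ((Fin M × Fin M × Fin M) × (Fin M × Fin M × Fin M)) → (Fin M → α) → Prop :=
    fun t f => (t.2.2.2 ≠ t.1.1 ∧ t.2.2.2 ≠ t.1.2.1 ∧ t.2.2.2 ≠ t.1.2.2 ∧ t.2.2.2 ≠ t.2.1 ∧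
      t.2.2.2 ≠ t.2.2.1) ∧ f t.2.1 ≠ f t.2.2.1 ∧ f t.2.2.2 ≠ f t.2.1 ∧ f t.2.2.2 ≠ f t.2.2.1 ∧
      ar (f t.1.1) (f t.1.2.1) (f t.1.2.2) = ar (f t.2.1) (f t.2.2.1) (f t.2.2.2)
  let Pp : (Fin M × Fin M) → (Fin M → α) → Prop := fun t f => t.1 ≠ t.2 ∧ f t.1 = f t.2
  have b1 : ∀ t, Fintype.card α * (univ.filter (Pt t)).card ≤ c * Fintype.card α ^ M := by
    intro t
    refine cnt M t.2.2.2 (Pt t) c fun f => ?_
    by_cases hne : (t.2.2.2 ≠ t.1.1 ∧ t.2.2.2 ≠ t.1.2.1 ∧ t.2.2.2 ≠ t.1.2.2 ∧ t.2.2.2 ≠ t.2.1 ∧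
      t.2.2.2 ≠ t.2.2.1) ∧ f t.2.1 ≠ f t.2.2.1
    · refine le_trans (card_le_card ?_) (hc (f t.2.1) (f t.2.2.1) hne.2
        (ar (f t.1.1) (f t.1.2.1) (f t.1.2.2)))
      intro x hx
      rw [mem_filter] at hx ⊢
      obtain ⟨-, -, -, h2, h3, h4⟩ := hx
      rw [Function.update_self, Function.update_of_ne (Ne.symm hne.1.2.2.2.1)] at h2
      rw [Function.update_self, Function.update_of_ne (Ne.symm hne.1.2.2.2.2)] at h3
      rw [Function.update_self, Function.update_of_ne (Ne.symm hne.1.2.2.2.1),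
        Function.update_of_ne (Ne.symm hne.1.2.2.2.2), Function.update_of_ne (Ne.symm hne.1.1),
        Function.update_of_ne (Ne.symm hne.1.2.1), Function.update_of_ne (Ne.symm hne.1.2.2.1)] at h4
      exact ⟨mem_univ _, h2, h3, h4.symm⟩
    · refine le_trans (le_of_eq ?_) (Nat.zero_le c)
      rw [card_eq_zero, filter_eq_empty_iff]
      intro x _ hx
      obtain ⟨h0, h1, -⟩ := hx
      rw [Function.update_of_ne (Ne.symm h0.2.2.2.1), Function.update_of_ne (Ne.symm h0.2.2.2.2)]
        at h1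
      exact hne ⟨h0, h1⟩
  have b2 : ∀ t, Fintype.card α * (univ.filter (Pp t)).card ≤ 1 * Fintype.card α ^ M := by
    intro t
    refine cnt M t.2 (Pp t) 1 fun f => ?_
    by_cases hne : t.1 ≠ t.2
    · rw [card_le_one]
      intro x hx y hy
      rw [mem_filter] at hx hy
      have h1 := hx.2.2
      have h2 := hy.2.2
      rw [Function.update_self, Function.update_of_ne hne] at h1 h2
      exact h1.symm.trans h2
    · refine le_trans (le_of_eq ?_) (Nat.zero_le 1)
      rw [card_eq_zero, filter_eq_empty_iff]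
      intro x _ hx
      exact hne hx.1
  have hsum : Fintype.card α * ∑ f : Fin M → α,
      ((univ.filter fun t => Pt t f).card + (univ.filter fun t => Pp t f).card) ≤
      (M ^ 6 * c + M ^ 2) * Fintype.card α ^ M := by
    rw [sum_add_distrib, mul_add, add_mul]
    refine add_le_add ?_ ?_
    · have h1 : ∑ f : Fin M → α, (univ.filter fun t => Pt t f).card =
          ∑ t, (univ.filter (Pt t)).card := by
        simp only [card_filter]
        exact sum_comm
      rw [h1, mul_sum]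
      refine (sum_le_sum fun t _ => b1 t).trans (le_of_eq ?_)
      rw [sum_const, card_univ, smul_eq_mul]
      simp only [Fintype.card_prod, Fintype.card_fin]
      ring
    · have h1 : ∑ f : Fin M → α, (univ.filter fun t => Pp t f).card =
          ∑ t, (univ.filter (Pp t)).card := by
        simp only [card_filter]
        exact sum_comm
      rw [h1, mul_sum]
      refine (sum_le_sum fun t _ => b2 t).trans (le_of_eq ?_)
      rw [sum_const, card_univ, smul_eq_mul]
      simp only [Fintype.card_prod, Fintype.card_fin]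
      ring
  obtain ⟨f, hf⟩ : ∃ f : Fin M → α,
      2 * ((univ.filter fun t => Pt t f).card + (univ.filter fun t => Pp t f).card) ≤ M := by
    by_contra hcon
    push Not at hcon
    have h1 : Fintype.card α * (∑ _f : Fin M → α, (M + 1)) ≤ Fintype.card α * (∑ f : Fin M → α,
        2 * ((univ.filter fun t => Pt t f).card + (univ.filter fun t => Pp t f).card)) :=
      Nat.mul_le_mul_left _ (sum_le_sum fun f _ => hcon f)
    rw [← mul_sum, sum_const, card_univ, smul_eq_mul, Fintype.card_fun, Fintype.card_fin] at h1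
    have h2 : 0 < Fintype.card α ^ M := pow_pos hα M
    have h3 : 2 * (M ^ 6 * c + M ^ 2) * Fintype.card α ^ M ≤
        M * Fintype.card α * Fintype.card α ^ M := Nat.mul_le_mul_right _ hM
    have h4 : Fintype.card α * (Fintype.card α ^ M * (M + 1)) =
        M * Fintype.card α * Fintype.card α ^ M + Fintype.card α * Fintype.card α ^ M := by ring
    have h5 : 0 < Fintype.card α * Fintype.card α ^ M := Nat.mul_pos hα h2
    have h6 : Fintype.card α * (2 * ∑ f : Fin M → α,
        ((univ.filter fun t => Pt t f).card + (univ.filter fun t => Pp t f).card)) =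
        2 * (Fintype.card α * ∑ f : Fin M → α,
        ((univ.filter fun t => Pt t f).card + (univ.filter fun t => Pp t f).card)) := by ring
    have h7 : 2 * (M ^ 6 * c + M ^ 2) * Fintype.card α ^ M =
        2 * ((M ^ 6 * c + M ^ 2) * Fintype.card α ^ M) := by ring
    rw [h6, h4] at h1
    rw [h7] at h3
    omega
  obtain ⟨J, hJ⟩ : ∃ J : Finset (Fin M), J = (univ.filter fun t => Pt t f).image (fun t => t.2.2.2) ∪
    (univ.filter fun t => Pp t f).image (fun t => t.2) := ⟨_, rfl⟩
  have hJc : 2 * J.card ≤ M := by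
    refine le_trans (Nat.mul_le_mul_left 2 ?_) hf
    rw [hJ]
    exact (card_union_le _ _).trans (add_le_add card_image_le card_image_le)
  have hinj : Set.InjOn f ((univ \ J : Finset (Fin M)) : Set (Fin M)) := by
    intro i hi i' hi' hii
    by_contra hne
    rw [mem_coe, mem_sdiff] at hi'
    apply hi'.2
    rw [hJ, mem_union]
    right
    rw [mem_image]
    exact ⟨(i, i'), by rw [mem_filter]; exact ⟨mem_univ _, hne, hii⟩, rfl⟩
  have key : ∀ i1 ∈ univ \ J, ∀ i2 ∈ univ \ J, ∀ i3 ∈ univ \ J, ∀ j1 ∈ univ \ J, ∀ j2 ∈ univ \ J,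
      ∀ j3 ∈ univ \ J, f j1 ≠ f j2 → f j3 ≠ f j1 → f j3 ≠ f j2 → f j3 ≠ f i1 → f j3 ≠ f i2 →
      f j3 ≠ f i3 → ar (f i1) (f i2) (f i3) ≠ ar (f j1) (f j2) (f j3) := by
    intro i1 _ i2 _ i3 _ j1 _ j2 _ j3 h3 n12 n31 n32 m1 m2 m3 heq
    rw [mem_sdiff] at h3
    apply h3.2
    rw [hJ, mem_union]
    left
    rw [mem_image]
    refine ⟨((i1, i2, i3), (j1, j2, j3)), ?_, rfl⟩
    rw [mem_filter]
    refine ⟨mem_univ _, ⟨?_, ?_, ?_, ?_, ?_⟩, n12, n31, n32, heq⟩
    · intro h; exact m1 (congrArg f h)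
    · intro h; exact m2 (congrArg f h)
    · intro h; exact m3 (congrArg f h)
    · intro h; exact n31 (congrArg f h)
    · intro h; exact n32 (congrArg f h)
  refine ⟨(univ \ J).image f, ?_, ?_⟩
  · rw [card_image_of_injOn hinj, card_sdiff_of_subset (subset_univ J), card_univ,
      Fintype.card_fin]
    omega
  · intro a ha b hb x hx a' ha' b' hb' x' hx' hab hax hbx hab' hax' hbx' heq
    rw [mem_image] at ha hb hx ha' hb' hx'
    obtain ⟨i1, hi1, rfl⟩ := ha
    obtain ⟨i2, hi2, rfl⟩ := hb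
    obtain ⟨i3, hi3, rfl⟩ := hx
    obtain ⟨j1, hj1, rfl⟩ := ha'
    obtain ⟨j2, hj2, rfl⟩ := hb'
    obtain ⟨j3, hj3, rfl⟩ := hx'
    by_contra hne
    have hc1 : ({f i1, f i2, f i3} : Finset α).card = 3 := card_eq_three.2
      ⟨_, _, _, hab, hax, hbx, rfl⟩
    have hc2 : ({f j1, f j2, f j3} : Finset α).card = 3 := card_eq_three.2
      ⟨_, _, _, hab', hax', hbx', rfl⟩
    have hns : ¬ ({f j1, f j2, f j3} : Finset α) ⊆ {f i1, f i2, f i3} := by
      intro hsub
      exact hne (eq_of_subset_of_card_le hsub (by rw [hc1, hc2])).symm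
    rw [not_subset] at hns
    obtain ⟨y, hy, hy'⟩ := hns
    simp only [mem_insert, mem_singleton, not_or] at hy hy'
    rcases hy with rfl | rfl | rfl
    · refine key i1 hi1 i2 hi2 i3 hi3 j3 hj3 j2 hj2 j1 hj1 (Ne.symm hbx') hax' hab' hy'.1 hy'.2.1
        hy'.2.2 ?_
      rw [heq, s1 (f j3), s2 (f j2), s1 (f j2)]
    · refine key i1 hi1 i2 hi2 i3 hi3 j1 hj1 j3 hj3 j2 hj2 hax' (Ne.symm hab') hbx' hy'.1 hy'.2.1
        hy'.2.2 ?_
      rw [heq, s2 (f j1)]
    · exact key i1 hi1 i2 hi2 i3 hi3 j1 hj1 j2 hj2 j3 hj3 hab' (Ne.symm hax') (Ne.symm hbx') hy'.1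
        hy'.2.1 hy'.2.2 heq

/-- families of `s`-sets with pairwise intersections of at most four elements -/
theorem fam_le {β : Type} [DecidableEq β] {n : ℕ} (hn : 0 < n) (T : Finset β)
    (A : β → Finset (Fin n)) (s : ℕ) (hs : ∀ b ∈ T, (A b).card = s)
    (hint : ∀ b ∈ T, ∀ b' ∈ T, b ≠ b' → (A b ∩ A b').card ≤ 4) (h8 : 8 * n ≤ s ^ 2) :
    4 * T.card ≤ s := by
  classical
  rcases Nat.eq_zero_or_pos T.card with hT | hT
  · rw [hT]
    omega
  have h1 : ∑ x : Fin n, (∑ b ∈ T, if x ∈ A b then 1 else 0) = T.card * s := by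
    rw [sum_comm]
    have h2 : ∀ b ∈ T, ∑ x : Fin n, (if x ∈ A b then 1 else 0) = s := by
      intro b hb
      rw [← card_filter, ← hs b hb]
      congr 1
      ext x
      simp
    rw [sum_congr rfl h2, sum_const, smul_eq_mul]
  have h3 : ∑ x : Fin n, (∑ b ∈ T, if x ∈ A b then 1 else 0) ^ 2 ≤
      T.card * s + T.card * (T.card * 4) := by
    have h4 : ∀ x : Fin n, (∑ b ∈ T, if x ∈ A b then 1 else 0) ^ 2 =
        ∑ b ∈ T, ∑ b' ∈ T, if x ∈ A b ∩ A b' then 1 else 0 := by
      intro x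
      rw [sq, sum_mul_sum]
      refine sum_congr rfl fun b _ => sum_congr rfl fun b' _ => ?_
      by_cases hb : x ∈ A b <;> by_cases hb' : x ∈ A b' <;> simp [hb, hb']
    simp only [h4]
    rw [sum_comm]
    have h5 : ∀ b ∈ T, ∑ x : Fin n, ∑ b' ∈ T, (if x ∈ A b ∩ A b' then 1 else 0) ≤
        s + T.card * 4 := by
      intro b hb
      rw [sum_comm]
      have h6 : ∀ b' ∈ T, ∑ x : Fin n, (if x ∈ A b ∩ A b' then 1 else 0) ≤
          (if b' = b then s else 0) + 4 := by
        intro b' hb'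
        rw [← card_filter]
        have h7 : (univ.filter fun x => x ∈ A b ∩ A b') = A b ∩ A b' := by
          ext x
          simp
        rw [h7]
        by_cases hbb : b' = b
        · subst hbb
          rw [if_pos rfl, inter_self, hs b' hb']
          omega
        · rw [if_neg hbb, zero_add]
          exact hint b hb b' hb' (Ne.symm hbb)
      refine (sum_le_sum h6).trans ?_
      rw [sum_add_distrib, sum_ite_eq', if_pos hb, sum_const, smul_eq_mul]
    refine (sum_le_sum h5).trans (le_of_eq ?_)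
    rw [sum_const, smul_eq_mul]
    ring
  have h9 : (∑ x : Fin n, (∑ b ∈ T, if x ∈ A b then 1 else 0)) ^ 2 ≤
      n * ∑ x : Fin n, (∑ b ∈ T, if x ∈ A b then 1 else 0) ^ 2 := by
    have := sq_sum_le_card_mul_sum_sq (s := (univ : Finset (Fin n)))
      (f := fun x => (∑ b ∈ T, if x ∈ A b then 1 else 0 : ℕ))
    rwa [card_univ, Fintype.card_fin] at this
  rw [h1] at h9
  have h10 : (T.card * s) ^ 2 ≤ n * (T.card * s + T.card * (T.card * 4)) :=
    h9.trans (Nat.mul_le_mul_left _ h3)
  have h11 : T.card * (T.card * s ^ 2) ≤ T.card * (n * s + 4 * n * T.card) := by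
    calc T.card * (T.card * s ^ 2) = (T.card * s) ^ 2 := by ring
      _ ≤ n * (T.card * s + T.card * (T.card * 4)) := h10
      _ = T.card * (n * s + 4 * n * T.card) := by ring
  have h12 := Nat.le_of_mul_le_mul_left h11 hT
  have h13 : T.card * (8 * n) ≤ T.card * s ^ 2 := Nat.mul_le_mul_left _ h8
  have h14 : n * (4 * T.card) ≤ n * s := by nlinarith
  exact Nat.le_of_mul_le_mul_left h14 hn

end Pool.Agent.H726.LA
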