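import Mathlib

set_option autoImplicit false

/-!
# Lines in general position in the plane and the areas of their triangles
-/

namespace Pool.Agent.H726.LA

/-- the point `z` lies on the line `u x + v y = w`, where `l = (u, v, w)` -/
def onLine (l : ℝ × ℝ × ℝ) (z : ℝ × ℝ) : Prop := l.1 * z.1 + l.2.1 * z.2 = l.2.2

/-- `n` lines in general position in the plane: each `ℓ i = (u, v, w)` is the line `u x + v y = w`
with `(u, v) ≠ (0, 0)`, any two meet in exactly one point, no three have a common point. -/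
def GenPos {n : ℕ} (ℓ : Fin n → ℝ × ℝ × ℝ) : Prop :=
  (∀ i, (ℓ i).1 ≠ 0 ∨ (ℓ i).2.1 ≠ 0) ∧
  (∀ i j, i ≠ j → ∃! z, onLine (ℓ i) z ∧ onLine (ℓ j) z) ∧
  (∀ i j k, i ≠ j → i ≠ k → j ≠ k → ¬ ∃ z, onLine (ℓ i) z ∧ onLine (ℓ j) z ∧ onLine (ℓ k) z)

/-- `t` is the area of the triangle bounded by the three lines with indices in `A`: `p`, `q`, `r`
are its vertices, and `t = |(q - p) × (r - p)| / 2` -/
def TriangleArea {n : ℕ} (ℓ : Fin n → ℝ × ℝ × ℝ) (A : Finset (Fin n)) (t : ℝ) : Prop :=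
  ∃ i j k, i ≠ j ∧ i ≠ k ∧ j ≠ k ∧ A = {i, j, k} ∧ ∃ p q r : ℝ × ℝ,
    (onLine (ℓ i) p ∧ onLine (ℓ j) p) ∧ (onLine (ℓ j) q ∧ onLine (ℓ k) q) ∧
    (onLine (ℓ k) r ∧ onLine (ℓ i) r) ∧
    t = |(q.1 - p.1) * (r.2 - p.2) - (q.2 - p.2) * (r.1 - p.1)| / 2

/-- different triples of lines of `S` bound triangles of different areas -/
def DistinctAreas {n : ℕ} (ℓ : Fin n → ℝ × ℝ × ℝ) (S : Finset (Fin n)) : Prop :=
  ∀ A B : Finset (Fin n), A ⊆ S → B ⊆ S → ∀ t, TriangleArea ℓ A t → TriangleArea ℓ B t → A = B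

end Pool.Agent.H726.LA
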