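import Pool.Agent.H726.LA.Cnt
import Pool.Agent.H726.LA.Defs

set_option autoImplicit false

/-!
# Lines in the plane, their triangles, and when many lines make the same area with two lines
-/

namespace Pool.Agent.H726.LA

open Finset

/-- determinant of the normal vectors -/
def DD (x y : ℝ × ℝ × ℝ) : ℝ := x.1 * y.2.1 - y.1 * x.2.1

/-- determinant of three lines -/
def DT (x y z : ℝ × ℝ × ℝ) : ℝ :=
  x.1 * (y.2.1 * z.2.2 - z.2.1 * y.2.2) - x.2.1 * (y.1 * z.2.2 - z.1 * y.2.2) +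
    x.2.2 * (y.1 * z.2.1 - z.1 * y.2.1)

theorem quartic (c0 c1 c2 c3 c4 : ℝ) (Z : Finset ℝ) (hZ : 5 ≤ Z.card)
    (h : ∀ s ∈ Z, c0 + c1 * s + c2 * s ^ 2 + c3 * s ^ 3 + c4 * s ^ 4 = 0) : c1 = 0 ∧ c3 = 0 := by
  obtain ⟨F, hF⟩ : ∃ F : Polynomial ℝ, F = Polynomial.C c0 + Polynomial.C c1 * Polynomial.X +
    Polynomial.C c2 * Polynomial.X ^ 2 + Polynomial.C c3 * Polynomial.X ^ 3 +
    Polynomial.C c4 * Polynomial.X ^ 4 := ⟨_, rfl⟩
  have he : ∀ s : ℝ, F.eval s = c0 + c1 * s + c2 * s ^ 2 + c3 * s ^ 3 + c4 * s ^ 4 := by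
    intro s
    rw [hF]
    simp
  have hdeg : F.natDegree ≤ 4 := by
    rw [hF]
    compute_degree
  have h0 : F = 0 := by
    refine Polynomial.eq_zero_of_natDegree_lt_card_of_eval_eq_zero' F Z ?_ (by omega)
    intro s hs
    rw [he]
    exact h s hs
  have e1 := he 1
  have e2 := he (-1)
  have e3 := he 2
  have e4 := he (-2)
  rw [h0, Polynomial.eval_zero] at e1 e2 e3 e4
  constructor <;> linarith

theorem meet_le {ι : Type} (ℓ : ι → ℝ × ℝ × ℝ) (a b a' b' : ℝ × ℝ × ℝ) (lam lam' : ℝ)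
    (hl : lam ≠ 0) (hab : DD a b ≠ 0) (hab' : DD a' b' ≠ 0) (Z : Finset ι) (hZ : 5 ≤ Z.card)
    (hd : ∀ x ∈ Z, ∀ y ∈ Z, x ≠ y → DD (ℓ x) (ℓ y) ≠ 0) (hb : ∀ x ∈ Z, DD b (ℓ x) ≠ 0)
    (h1 : ∀ x ∈ Z, DT a b (ℓ x) ^ 2 = lam * DD a (ℓ x) * DD b (ℓ x))
    (h2 : ∀ x ∈ Z, DT a' b' (ℓ x) ^ 2 = lam' * DD a' (ℓ x) * DD b' (ℓ x)) :
    DT a' b' a = 0 ∧ DT a' b' b = 0 := by
  classical
  have hk : ∀ x ∈ Z, DD a (ℓ x) / DD b (ℓ x) = (DT a b (ℓ x) / DD b (ℓ x)) ^ 2 / lam := by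
    intro x hx
    have h3 := hb x hx
    rw [div_pow, h1 x hx]
    field_simp
  have hinj : Set.InjOn (fun x => DT a b (ℓ x) / DD b (ℓ x)) (Z : Set ι) := by
    intro x hx y hy hxy
    by_contra hne
    have hx' := hb x hx
    have hy' := hb y hy
    simp only at hxy
    have h3 : DD a (ℓ x) / DD b (ℓ x) = DD a (ℓ y) / DD b (ℓ y) := by
      rw [hk x hx, hk y hy, hxy]
    rw [div_eq_div_iff hx' hy'] at h3
    have h4 : DD a b * DD (ℓ x) (ℓ y) =
        DD a (ℓ x) * DD b (ℓ y) - DD a (ℓ y) * DD b (ℓ x) := by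
      unfold DD
      ring
    rw [h3, sub_self] at h4
    exact (mul_ne_zero hab (hd x hx y hy hne)) h4
  have hZ' : 5 ≤ (Z.image (fun x => DT a b (ℓ x) / DD b (ℓ x))).card := by
    rw [card_image_of_injOn hinj]
    exact hZ
  have hq := quartic
    ((DT a' b' a) ^ 2 - lam' * (DD a' a * DD b' a))
    (-(2 * DT a' b' a * DD a' b'))
    ((DD a' b') ^ 2 - 2 * DT a' b' a * (DT a' b' b / lam) +
      lam' * (DD a' a * (DD b' b / lam) + DD b' a * (DD a' b / lam)))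
    (2 * DD a' b' * (DT a' b' b / lam))
    ((DT a' b' b / lam) ^ 2 - lam' * ((DD a' b / lam) * (DD b' b / lam))) _ hZ' (by
      intro s hs
      rw [mem_image] at hs
      obtain ⟨x, hx, hs⟩ := hs
      have hx' := hb x hx
      have e1 : DT a' b' (ℓ x) * DD a b = - DD b (ℓ x) * DT a' b' a + DD a (ℓ x) * DT a' b' b +
          DT a b (ℓ x) * DD a' b' := by
        unfold DD DT
        ring
      have e2 : DD a' (ℓ x) * DD a b = - DD b (ℓ x) * DD a' a + DD a (ℓ x) * DD a' b := by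
        unfold DD
        ring
      have e3 : DD b' (ℓ x) * DD a b = - DD b (ℓ x) * DD b' a + DD a (ℓ x) * DD b' b := by
        unfold DD
        ring
      have k1 := hk x hx
      rw [hs] at k1
      have f1 : DT a' b' (ℓ x) * DD a b / DD b (ℓ x) =
          - DT a' b' a + s ^ 2 / lam * DT a' b' b + s * DD a' b' := by
        rw [e1, ← k1, ← hs]
        field_simp
      have f2 : DD a' (ℓ x) * DD a b / DD b (ℓ x) = - DD a' a + s ^ 2 / lam * DD a' b := by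
        rw [e2, ← k1]
        field_simp
      have f3 : DD b' (ℓ x) * DD a b / DD b (ℓ x) = - DD b' a + s ^ 2 / lam * DD b' b := by
        rw [e3, ← k1]
        field_simp
      have f4 : (DT a' b' (ℓ x) * DD a b / DD b (ℓ x)) ^ 2 =
          lam' * (DD a' (ℓ x) * DD a b / DD b (ℓ x)) * (DD b' (ℓ x) * DD a b / DD b (ℓ x)) := by
        have h5 := h2 x hx
        calc (DT a' b' (ℓ x) * DD a b / DD b (ℓ x)) ^ 2
            = DT a' b' (ℓ x) ^ 2 * (DD a b / DD b (ℓ x)) ^ 2 := by ring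
          _ = lam' * (DD a' (ℓ x) * DD a b / DD b (ℓ x)) *
              (DD b' (ℓ x) * DD a b / DD b (ℓ x)) := by rw [h5]; ring
      rw [f1, f2, f3] at f4
      linear_combination f4)
  obtain ⟨hq1, hq2⟩ := hq
  constructor
  · have h5 : DT a' b' a * DD a' b' = 0 := by linarith
    exact (mul_eq_zero.1 h5).resolve_right hab'
  · have h5 : DD a' b' * (DT a' b' b / lam) = 0 := by linarith
    have h6 := (mul_eq_zero.1 h5).resolve_left hab'
    exact (div_eq_zero_iff.1 h6).resolve_right hl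

theorem area_eq (a b c : ℝ × ℝ × ℝ) (p q r : ℝ × ℝ) (hab : DD a b ≠ 0) (hbc : DD b c ≠ 0)
    (hca : DD c a ≠ 0) (h1 : onLine a p) (h2 : onLine b p) (h3 : onLine b q) (h4 : onLine c q)
    (h5 : onLine c r) (h6 : onLine a r) :
    |(q.1 - p.1) * (r.2 - p.2) - (q.2 - p.2) * (r.1 - p.1)| / 2 =
      (DT a b c) ^ 2 / (2 * |DD a b * DD b c * DD c a|) := by
  unfold onLine at h1 h2 h3 h4 h5 h6
  have p1 : p.1 = (a.2.2 * b.2.1 - b.2.2 * a.2.1) / DD a b := by
    rw [eq_div_iff hab, ← h1, ← h2]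
    unfold DD
    ring
  have p2 : p.2 = (a.1 * b.2.2 - b.1 * a.2.2) / DD a b := by
    rw [eq_div_iff hab, ← h1, ← h2]
    unfold DD
    ring
  have q1 : q.1 = (b.2.2 * c.2.1 - c.2.2 * b.2.1) / DD b c := by
    rw [eq_div_iff hbc, ← h3, ← h4]
    unfold DD
    ring
  have q2 : q.2 = (b.1 * c.2.2 - c.1 * b.2.2) / DD b c := by
    rw [eq_div_iff hbc, ← h3, ← h4]
    unfold DD
    ring
  have r1 : r.1 = (c.2.2 * a.2.1 - a.2.2 * c.2.1) / DD c a := by
    rw [eq_div_iff hca, ← h5, ← h6]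
    unfold DD
    ring
  have r2 : r.2 = (c.1 * a.2.2 - a.1 * c.2.2) / DD c a := by
    rw [eq_div_iff hca, ← h5, ← h6]
    unfold DD
    ring
  have hX : (q.1 - p.1) * (r.2 - p.2) - (q.2 - p.2) * (r.1 - p.1) =
      (DT a b c) ^ 2 / (DD a b * DD b c * DD c a) := by
    rw [p1, p2, q1, q2, r1, r2]
    rw [eq_div_iff (mul_ne_zero (mul_ne_zero hab hbc) hca)]
    field_simp
    unfold DT DD
    ring
  rw [hX, abs_div, abs_of_nonneg (sq_nonneg (DT a b c)), div_div, mul_comm]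

end Pool.Agent.H726.LA
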