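import Pool.Agent.H726.LA.Geo

set_option autoImplicit false

/-!
# Sides of a regular polygon: the upper bound
-/

namespace Pool.Agent.H726.LA

open Finset

/-- the tangent line of the unit circle at angle `2 π m / N` -/
noncomputable def L (N m : ℕ) : ℝ × ℝ × ℝ :=
  (Real.cos (2 * (Real.pi * m / N)), Real.sin (2 * (Real.pi * m / N)), 1)

theorem DD_L (N a b : ℕ) :
    DD (L N a) (L N b) = Real.sin (2 * (Real.pi * b / N) - 2 * (Real.pi * a / N)) := by
  rw [Real.sin_sub]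
  unfold DD L
  simp only
  ring

theorem DT_L (N a b c : ℕ) :
    DT (L N a) (L N b) (L N c) = DD (L N a) (L N b) + DD (L N b) (L N c) + DD (L N c) (L N a) := by
  unfold DT DD L
  simp only
  ring

theorem sin_ne (N : ℕ) (hN : 0 < N) (a b : ℕ) (ha : a < N) (hb : b < N) (hab : a ≠ b) :
    Real.sin (Real.pi * b / N - Real.pi * a / N) ≠ 0 := by
  intro h
  rw [Real.sin_eq_zero_iff] at h
  obtain ⟨m, hm⟩ := h
  have hN' : (N : ℝ) ≠ 0 := by exact_mod_cast hN.ne'
  have h1 : (m : ℝ) * N = b - a := by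
    have h2 : (m : ℝ) * Real.pi * N = Real.pi * (b - a) := by
      rw [hm]
      field_simp
    have h3 : Real.pi * ((m : ℝ) * N) = Real.pi * (b - a) := by linarith
    exact mul_left_cancel₀ Real.pi_ne_zero h3
  have h4 : (m : ℤ) * N = b - a := by exact_mod_cast h1
  have h5 : m = 0 := by
    have h6 : m < 1 := by
      by_contra h7
      push Not at h7
      nlinarith
    have h8 : -1 < m := by
      by_contra h7
      push Not at h7
      nlinarith
    omega
  rw [h5] at h4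
  omega

theorem sin_ne2 (N : ℕ) (hN : Odd N) (a b : ℕ) (ha : a < N) (hb : b < N) (hab : a ≠ b) :
    DD (L N a) (L N b) ≠ 0 := by
  rw [DD_L]
  intro h
  rw [Real.sin_eq_zero_iff] at h
  obtain ⟨m, hm⟩ := h
  have hN0 : 0 < N := hN.pos
  have hN' : (N : ℝ) ≠ 0 := by exact_mod_cast hN0.ne'
  have h1 : (m : ℝ) * N = 2 * (b - a) := by
    have h2 : (m : ℝ) * Real.pi * N = Real.pi * (2 * (b - a)) := by
      rw [hm]
      field_simp
    have h3 : Real.pi * ((m : ℝ) * N) = Real.pi * (2 * (b - a)) := by linarith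
    exact mul_left_cancel₀ Real.pi_ne_zero h3
  have h4 : (m : ℤ) * N = 2 * (b - a) := by exact_mod_cast h1
  obtain ⟨q, hq⟩ := hN
  have h6 : m < 2 := by
    by_contra h7
    push Not at h7
    nlinarith
  have h8 : -2 < m := by
    by_contra h7
    push Not at h7
    nlinarith
  have h9 : m = 0 ∨ m = 1 ∨ m = -1 := by omega
  rcases h9 with h9 | h9 | h9
  · rw [h9] at h4
    omega
  · rw [h9, hq] at h4
    push_cast at h4
    omega
  · rw [h9, hq] at h4
    push_cast at h4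
    omega

theorem trig (X Y : ℝ) : Real.sin (2 * X) + Real.sin (2 * Y) - Real.sin (2 * X + 2 * Y) =
    4 * Real.sin X * Real.sin Y * Real.sin (X + Y) := by
  have h1 : Real.cos (2 * X) = 1 - 2 * Real.sin X ^ 2 := by
    rw [Real.cos_two_mul]
    linarith [Real.sin_sq_add_cos_sq X]
  have h2 : Real.cos (2 * Y) = 1 - 2 * Real.sin Y ^ 2 := by
    rw [Real.cos_two_mul]
    linarith [Real.sin_sq_add_cos_sq Y]
  rw [Real.sin_add, Real.sin_add, h1, h2, Real.sin_two_mul, Real.sin_two_mul]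
  ring

theorem DT_ne (N : ℕ) (hN : 0 < N) (a b c : ℕ) (ha : a < N) (hb : b < N) (hc : c < N)
    (hab : a ≠ b) (hac : a ≠ c) (hbc : b ≠ c) : DT (L N a) (L N b) (L N c) ≠ 0 := by
  have h1 := trig (Real.pi * b / N - Real.pi * a / N) (Real.pi * c / N - Real.pi * b / N)
  have h2 : DT (L N a) (L N b) (L N c) =
      Real.sin (2 * (Real.pi * b / N - Real.pi * a / N)) +
      Real.sin (2 * (Real.pi * c / N - Real.pi * b / N)) -
      Real.sin (2 * (Real.pi * b / N - Real.pi * a / N) +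
        2 * (Real.pi * c / N - Real.pi * b / N)) := by
    rw [DT_L, DD_L, DD_L, DD_L]
    have e1 : 2 * (Real.pi * b / N) - 2 * (Real.pi * a / N) =
      2 * (Real.pi * b / N - Real.pi * a / N) := by ring
    have e2 : 2 * (Real.pi * c / N) - 2 * (Real.pi * b / N) =
      2 * (Real.pi * c / N - Real.pi * b / N) := by ring
    have e3 : 2 * (Real.pi * a / N) - 2 * (Real.pi * c / N) =
      -(2 * (Real.pi * b / N - Real.pi * a / N) +
        2 * (Real.pi * c / N - Real.pi * b / N)) := by ring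
    rw [e1, e2, e3, Real.sin_neg]
    ring
  have e4 : Real.pi * b / N - Real.pi * a / N + (Real.pi * c / N - Real.pi * b / N) =
      Real.pi * c / N - Real.pi * a / N := by ring
  rw [h2, h1, e4]
  exact mul_ne_zero (mul_ne_zero (mul_ne_zero (by norm_num) (sin_ne N hN a b ha hb hab))
    (sin_ne N hN b c hb hc hbc)) (sin_ne N hN a c ha hc hac)

theorem exu (l m : ℝ × ℝ × ℝ) (h : DD l m ≠ 0) : ∃! z, onLine l z ∧ onLine m z := by
  refine ⟨((l.2.2 * m.2.1 - m.2.2 * l.2.1) / DD l m, (l.1 * m.2.2 - m.1 * l.2.2) / DD l m),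
    ⟨?_, ?_⟩, ?_⟩
  · unfold onLine
    simp only
    field_simp
    unfold DD
    ring
  · unfold onLine
    simp only
    field_simp
    unfold DD
    ring
  · rintro z ⟨h1, h2⟩
    unfold onLine at h1 h2
    refine Prod.ext ?_ ?_
    · simp only
      rw [eq_div_iff h, ← h1, ← h2]
      unfold DD
      ring
    · simp only
      rw [eq_div_iff h, ← h1, ← h2]
      unfold DD
      ring

theorem genPos_L (N n : ℕ) (hN : Odd N) (hn : n ≤ N) : GenPos fun i : Fin n => L N i := by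
  have hlt : ∀ i : Fin n, (i : ℕ) < N := fun i => lt_of_lt_of_le i.2 hn
  refine ⟨?_, ?_, ?_⟩
  · intro i
    by_contra hcon
    push Not at hcon
    have h1 := Real.sin_sq_add_cos_sq (2 * (Real.pi * ((i : ℕ) : ℝ) / N))
    have h2 : Real.cos (2 * (Real.pi * ((i : ℕ) : ℝ) / N)) = 0 := hcon.1
    have h3 : Real.sin (2 * (Real.pi * ((i : ℕ) : ℝ) / N)) = 0 := hcon.2
    rw [h2, h3] at h1
    norm_num at h1
  · intro i j hij
    exact exu _ _ (sin_ne2 N hN i j (hlt i) (hlt j) (fun h => hij (Fin.ext h)))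
  · rintro i j k hij hik hjk ⟨z, h1, h2, h3⟩
    apply DT_ne N hN.pos i j k (hlt i) (hlt j) (hlt k) (fun h => hij (Fin.ext h))
      (fun h => hik (Fin.ext h)) (fun h => hjk (Fin.ext h))
    unfold onLine at h1 h2 h3
    unfold DT
    rw [← h1, ← h2, ← h3]
    ring

theorem area_refl (N n : ℕ) (hN : Odd N) (hn : n ≤ N) (a b c d : Fin n) (hab : a ≠ b)
    (hac : a ≠ c) (hbc : b ≠ c) (had : a ≠ d) (hbd : b ≠ d) (m : ℤ)
    (h : ((a : ℕ) : ℝ) + ((b : ℕ) : ℝ) = ((c : ℕ) : ℝ) + ((d : ℕ) : ℝ) + m * N) :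
    ∃ t, TriangleArea (fun i : Fin n => L N i) {a, b, c} t ∧
      TriangleArea (fun i : Fin n => L N i) {a, b, d} t := by
  have hlt : ∀ i : Fin n, (i : ℕ) < N := fun i => lt_of_lt_of_le i.2 hn
  have hN' : (N : ℝ) ≠ 0 := by exact_mod_cast hN.pos.ne'
  have hd : ∀ i j : Fin n, i ≠ j → DD (L N i) (L N j) ≠ 0 := fun i j hij =>
    sin_ne2 N hN i j (hlt i) (hlt j) (fun h => hij (Fin.ext h))
  have e1 : DD (L N b) (L N c) = DD (L N d) (L N a) := by
    rw [DD_L, DD_L]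
    have : 2 * (Real.pi * ((a : ℕ) : ℝ) / N) - 2 * (Real.pi * ((d : ℕ) : ℝ) / N) =
        2 * (Real.pi * ((c : ℕ) : ℝ) / N) - 2 * (Real.pi * ((b : ℕ) : ℝ) / N) +
          m * (2 * Real.pi) := by
      field_simp
      linear_combination h
    rw [this, Real.sin_add_int_mul_two_pi]
  have e2 : DD (L N c) (L N a) = DD (L N b) (L N d) := by
    rw [DD_L, DD_L]
    have : 2 * (Real.pi * ((a : ℕ) : ℝ) / N) - 2 * (Real.pi * ((c : ℕ) : ℝ) / N) =
        2 * (Real.pi * ((d : ℕ) : ℝ) / N) - 2 * (Real.pi * ((b : ℕ) : ℝ) / N) +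
          m * (2 * Real.pi) := by
      field_simp
      linear_combination h
    rw [this, Real.sin_add_int_mul_two_pi]
  obtain ⟨p, ⟨hp1, hp2⟩, -⟩ := exu _ _ (hd a b hab)
  obtain ⟨q, ⟨hq1, hq2⟩, -⟩ := exu _ _ (hd b c hbc)
  obtain ⟨r, ⟨hr1, hr2⟩, -⟩ := exu _ _ (hd c a (Ne.symm hac))
  obtain ⟨q', ⟨hq1', hq2'⟩, -⟩ := exu _ _ (hd b d hbd)
  obtain ⟨r', ⟨hr1', hr2'⟩, -⟩ := exu _ _ (hd d a (Ne.symm had))
  have k1 := area_eq _ _ _ p q r (hd a b hab) (hd b c hbc) (hd c a (Ne.symm hac)) hp1 hp2 hq1 hq2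
    hr1 hr2
  have k2 := area_eq _ _ _ p q' r' (hd a b hab) (hd b d hbd) (hd d a (Ne.symm had)) hp1 hp2 hq1'
    hq2' hr1' hr2'
  refine ⟨_, ⟨a, b, c, hab, hac, hbc, rfl, p, q, r, ⟨hp1, hp2⟩, ⟨hq1, hq2⟩, ⟨hr1, hr2⟩, rfl⟩,
    ⟨a, b, d, hab, had, hbd, rfl, p, q', r', ⟨hp1, hp2⟩, ⟨hq1', hq2'⟩, ⟨hr1', hr2'⟩, ?_⟩⟩
  rw [k1, k2, DT_L, DT_L, e1, e2]
  congr 2
  · ring
  · congr 1
    ring

theorem upper (n : ℕ) : ∃ ℓ : Fin n → ℝ × ℝ × ℝ, GenPos ℓ ∧
    ∀ S : Finset (Fin n), DistinctAreas ℓ S → S.card * (S.card - 1) ≤ 2 * (n + 1) := by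
  classical
  obtain ⟨N, hN⟩ : ∃ N, N = 2 * (n / 2) + 1 := ⟨_, rfl⟩
  have hodd : Odd N := ⟨_, hN⟩
  have hn : n ≤ N := by omega
  have hN2 : N ≤ n + 1 := by omega
  refine ⟨fun i => L N i, genPos_L N n hodd hn, fun S hS => ?_⟩
  have hkey : ∀ a ∈ S, ∀ b ∈ S, ∀ c ∈ S, ∀ d ∈ S, a ≠ b → c ≠ d →
      ((a : ℕ) + b) % N = ((c : ℕ) + d) % N → (c = a ∧ d = b) ∨ (c = b ∧ d = a) := by
    intro a ha b hb c hc d hd hab hcd hmod
    have hla : (a : ℕ) < N := lt_of_lt_of_le a.2 hn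
    have hlb : (b : ℕ) < N := lt_of_lt_of_le b.2 hn
    have hlc : (c : ℕ) < N := lt_of_lt_of_le c.2 hn
    have hld : (d : ℕ) < N := lt_of_lt_of_le d.2 hn
    obtain ⟨m, hm⟩ : ∃ m : ℤ, ((a : ℕ) : ℤ) + (b : ℕ) = (c : ℕ) + (d : ℕ) + m * N := by
      have h1 := Nat.div_add_mod ((a : ℕ) + b) N
      have h2 := Nat.div_add_mod ((c : ℕ) + d) N
      refine ⟨(((a : ℕ) + b) / N : ℕ) - (((c : ℕ) + d) / N : ℕ), ?_⟩
      have h1' : (N : ℤ) * (((a : ℕ) + b) / N : ℕ) + (((a : ℕ) + b) % N : ℕ) = (a : ℕ) + (b : ℕ) := by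
        exact_mod_cast h1
      have h2' : (N : ℤ) * (((c : ℕ) + d) / N : ℕ) + (((c : ℕ) + d) % N : ℕ) = (c : ℕ) + (d : ℕ) := by
        exact_mod_cast h2
      rw [hmod] at h1'
      linear_combination h2' - h1'
    have hmR : ((a : ℕ) : ℝ) + ((b : ℕ) : ℝ) = ((c : ℕ) : ℝ) + ((d : ℕ) : ℝ) + m * N := by
      exact_mod_cast hm
    have hmb : -2 < m ∧ m < 2 := by
      constructor
      · by_contra h7
        push Not at h7
        nlinarith
      · by_contra h7
        push Not at h7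
        nlinarith
    have hm3 : m = 0 ∨ m = 1 ∨ m = -1 := by omega
    have hcase : ∀ x y z w : ℕ, x < N → y < N → z < N → w < N →
        ((x : ℤ) + y = z + w + m * N) → (z = x → w = y) ∧ (z = y → w = x) ∧ (w = x → z = y) ∧
          (w = y → z = x) := by
      intro x y z w hx hy hz hw hxy
      rcases hm3 with h | h | h <;> rw [h] at hxy <;> omega
    have hcc := hcase a b c d hla hlb hlc hld hm
    by_cases h1 : c = a
    · exact Or.inl ⟨h1, Fin.ext (hcc.1 (congrArg _ h1))⟩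
    by_cases h2 : c = b
    · exact Or.inr ⟨h2, Fin.ext (hcc.2.1 (congrArg _ h2))⟩
    by_cases h3 : d = a
    · exact Or.inr ⟨Fin.ext (hcc.2.2.1 (congrArg _ h3)), h3⟩
    by_cases h4 : d = b
    · exact Or.inl ⟨Fin.ext (hcc.2.2.2 (congrArg _ h4)), h4⟩
    exfalso
    obtain ⟨t, ht1, ht2⟩ := area_refl N n hodd hn a b c d hab (Ne.symm h1) (Ne.symm h2)
      (Ne.symm h3) (Ne.symm h4) m hmR
    have h5 := hS {a, b, c} {a, b, d} (by
      intro x hx
      simp only [mem_insert, mem_singleton] at hx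
      rcases hx with rfl | rfl | rfl <;> assumption) (by
      intro x hx
      simp only [mem_insert, mem_singleton] at hx
      rcases hx with rfl | rfl | rfl <;> assumption) t ht1 ht2
    have h6 : c ∈ ({a, b, d} : Finset (Fin n)) := by
      rw [← h5]
      simp
    simp only [mem_insert, mem_singleton] at h6
    rcases h6 with h6 | h6 | h6
    · exact h1 h6
    · exact h2 h6
    · exact hcd h6
  have hfib : ∀ y ∈ S.offDiag.image (fun x => ((x.1 : ℕ) + x.2) % N),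
      (S.offDiag.filter fun x => ((x.1 : ℕ) + x.2) % N = y).card ≤ 2 := by
    intro y hy
    rw [mem_image] at hy
    obtain ⟨⟨a, b⟩, hab, hy⟩ := hy
    rw [mem_offDiag] at hab
    refine le_trans (card_le_card (t := {(a, b), (b, a)}) ?_) card_le_two
    rintro ⟨c, d⟩ hx
    rw [mem_filter, mem_offDiag] at hx
    obtain ⟨⟨hc, hd, hcd⟩, hx⟩ := hx
    simp only at hx hy hc hd hcd hab
    rw [mem_insert, mem_singleton]
    rcases hkey a hab.1 b hab.2.1 c hc d hd hab.2.2 hcd (hy.trans hx.symm) with h | h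
    · left
      rw [h.1, h.2]
    · right
      rw [h.1, h.2]
  have h1 := card_le_mul_card_image (f := fun x : Fin n × Fin n => ((x.1 : ℕ) + x.2) % N)
    S.offDiag 2 hfib
  have h2 : (S.offDiag.image (fun x => ((x.1 : ℕ) + x.2) % N)).card ≤ N := by
    refine (card_le_card (t := range N) ?_).trans (card_range N).le
    intro y hy
    rw [mem_image] at hy
    obtain ⟨x, -, rfl⟩ := hy
    rw [mem_range]
    exact Nat.mod_lt _ hodd.pos
  rw [offDiag_card] at h1
  calc S.card * (S.card - 1) = S.card * S.card - S.card := by rw [Nat.mul_sub, mul_one]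
    _ ≤ 2 * _ := h1
    _ ≤ 2 * (n + 1) := Nat.mul_le_mul_left 2 (h2.trans hN2)

end Pool.Agent.H726.LA
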