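import Pool.Agent.H726.LA.Geo

set_option autoImplicit false

/-!
# Distinct triangle areas in line arrangements in general position
-/

namespace Pool.Agent.H726.LA

open Finset

theorem dd_ne (l m : ℝ × ℝ × ℝ) (hl : l.1 ≠ 0 ∨ l.2.1 ≠ 0)
    (h : ∃! z, onLine l z ∧ onLine m z) : DD l m ≠ 0 := by
  intro h0
  obtain ⟨z, ⟨hz1, hz2⟩, hu⟩ := h
  unfold onLine at hz1 hz2
  unfold DD at h0
  have h1 := hu (z.1 - l.2.1, z.2 + l.1) ⟨by unfold onLine; simp only; linarith,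
    by unfold onLine; simp only; linarith⟩
  have h2 := congrArg Prod.fst h1
  have h3 := congrArg Prod.snd h1
  simp only at h2 h3
  rcases hl with hl | hl
  · exact hl (by linarith)
  · exact hl (by linarith)

theorem dt_ne (l m k : ℝ × ℝ × ℝ) (hd : DD l m ≠ 0)
    (h : ¬ ∃ z, onLine l z ∧ onLine m z ∧ onLine k z) : DT l m k ≠ 0 := by
  intro h0
  apply h
  refine ⟨((l.2.2 * m.2.1 - m.2.2 * l.2.1) / DD l m, (l.1 * m.2.2 - m.1 * l.2.2) / DD l m),
    ?_, ?_, ?_⟩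
  · unfold onLine
    simp only
    field_simp
    unfold DD
    ring
  · unfold onLine
    simp only
    field_simp
    unfold DD
    ring
  · unfold onLine
    simp only
    field_simp
    unfold DD DT at *
    linear_combination -h0

/-- the area of the triangle bounded by three lines -/
noncomputable def ar (a b x : ℝ × ℝ × ℝ) : ℝ := (DT a b x) ^ 2 / (2 * |DD a b * DD b x * DD x a|)

theorem ar1 (a b x : ℝ × ℝ × ℝ) : ar a b x = ar b a x := by
  unfold ar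
  have h1 : DT b a x = - DT a b x := by unfold DT; ring
  have h2 : DD b a * DD a x * DD x b = - (DD a b * DD b x * DD x a) := by unfold DD; ring
  rw [h1, h2, abs_neg, neg_sq]

theorem ar2 (a b x : ℝ × ℝ × ℝ) : ar a b x = ar a x b := by
  unfold ar
  have h1 : DT a x b = - DT a b x := by unfold DT; ring
  have h2 : DD a x * DD x b * DD b a = - (DD a b * DD b x * DD x a) := by unfold DD; ring
  rw [h1, h2, abs_neg, neg_sq]

/-- the lines making the signed product `lam` with two given lines -/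
noncomputable def R {n : ℕ} (ℓ : Fin n → ℝ × ℝ × ℝ) (i j : Fin n) (lam : ℝ) : Finset (Fin n) := by
  classical
  exact univ.filter fun x => x ≠ i ∧ x ≠ j ∧
    DT (ℓ i) (ℓ j) (ℓ x) ^ 2 = lam * DD (ℓ i) (ℓ x) * DD (ℓ j) (ℓ x)

theorem mem_R {n : ℕ} (ℓ : Fin n → ℝ × ℝ × ℝ) (i j : Fin n) (lam : ℝ) (x : Fin n) :
    x ∈ R ℓ i j lam ↔ x ≠ i ∧ x ≠ j ∧
      DT (ℓ i) (ℓ j) (ℓ x) ^ 2 = lam * DD (ℓ i) (ℓ x) * DD (ℓ j) (ℓ x) := by
  unfold R
  rw [mem_filter]
  exact ⟨fun h => h.2, fun h => ⟨mem_univ _, h⟩⟩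

theorem R_symm {n : ℕ} (ℓ : Fin n → ℝ × ℝ × ℝ) (i j : Fin n) (lam : ℝ) :
    R ℓ i j lam = R ℓ j i lam := by
  ext x
  rw [mem_R, mem_R]
  have h1 : DT (ℓ j) (ℓ i) (ℓ x) = - DT (ℓ i) (ℓ j) (ℓ x) := by unfold DT; ring
  rw [h1, neg_sq]
  constructor
  · rintro ⟨a, b, c⟩
    exact ⟨b, a, by rw [c]; ring⟩
  · rintro ⟨a, b, c⟩
    exact ⟨b, a, by rw [c]; ring⟩

theorem ar_mem {n : ℕ} (ℓ : Fin n → ℝ × ℝ × ℝ) (i j x : Fin n) (t : ℝ)
    (h1 : DD (ℓ i) (ℓ j) ≠ 0) (h2 : DD (ℓ j) (ℓ x) ≠ 0) (h3 : DD (ℓ x) (ℓ i) ≠ 0)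
    (hxi : x ≠ i) (hxj : x ≠ j) (h : ar (ℓ i) (ℓ j) (ℓ x) = t) :
    x ∈ R ℓ i j (2 * t * |DD (ℓ i) (ℓ j)|) ∨ x ∈ R ℓ i j (-(2 * t * |DD (ℓ i) (ℓ j)|)) := by
  unfold ar at h
  have hpos : 0 < 2 * |DD (ℓ i) (ℓ j) * DD (ℓ j) (ℓ x) * DD (ℓ x) (ℓ i)| :=
    mul_pos two_pos (abs_pos.2 (mul_ne_zero (mul_ne_zero h1 h2) h3))
  rw [div_eq_iff hpos.ne', abs_mul, abs_mul] at h
  have h4 : |DD (ℓ x) (ℓ i)| = |DD (ℓ i) (ℓ x)| := by
    have : DD (ℓ x) (ℓ i) = - DD (ℓ i) (ℓ x) := by unfold DD; ring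
    rw [this, abs_neg]
  rw [h4] at h
  have h5 : |DD (ℓ j) (ℓ x)| * |DD (ℓ i) (ℓ x)| = |DD (ℓ j) (ℓ x) * DD (ℓ i) (ℓ x)| :=
    (abs_mul _ _).symm
  rcases abs_choice (DD (ℓ j) (ℓ x) * DD (ℓ i) (ℓ x)) with h6 | h6
  · left
    rw [mem_R]
    refine ⟨hxi, hxj, ?_⟩
    rw [h6] at h5
    rw [h]
    linear_combination (2 * t * |DD (ℓ i) (ℓ j)|) * h5
  · right
    rw [mem_R]
    refine ⟨hxi, hxj, ?_⟩
    rw [h6] at h5
    rw [h]
    linear_combination (2 * t * |DD (ℓ i) (ℓ j)|) * h5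

theorem arith (n k s v : ℕ) (hk : (4 * k) ^ 10 ≤ n) (hk0 : 0 < k) (hs : s = Nat.sqrt (8 * n) + 1)
    (hv : 2 * v ≤ s) : 2 * ((2 * k) ^ 6 * (2 * s) + (2 * k) ^ 2) ≤ (2 * k) * (n - v) := by
  obtain ⟨m, hm⟩ : ∃ m, m = Nat.sqrt n := ⟨_, rfl⟩
  obtain ⟨K, hK⟩ : ∃ K, K = k ^ 5 := ⟨_, rfl⟩
  have h1 : 1024 * K ≤ m := by
    rw [hm, hK, Nat.le_sqrt']
    calc (1024 * k ^ 5) ^ 2 = (4 * k) ^ 10 := by ring
      _ ≤ n := hk
  have hkK : k ≤ K := by
    rw [hK]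
    exact Nat.le_self_pow (by norm_num) k
  have hK1 : 1 ≤ K := le_trans hk0 hkK
  have hm1 : m * m ≤ n := by
    rw [hm]
    exact Nat.sqrt_le n
  have hm2 : n < (m + 1) * (m + 1) := by
    rw [hm]
    exact Nat.lt_succ_sqrt n
  have hs1 : s ≤ 3 * m + 1 := by
    rw [hs]
    have : Nat.sqrt (8 * n) < 3 * m + 1 := by
      rw [Nat.sqrt_lt']
      nlinarith
    omega
  have h2 : 8 * (128 * K * s) ≤ m * (3 * m + 1) := by
    calc 8 * (128 * K * s) = (1024 * K) * s := by ring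
      _ ≤ m * (3 * m + 1) := Nat.mul_le_mul h1 hs1
  have h3 : 128 * K * s + 4 * k ≤ n - v := by
    have h4 : 8 * (128 * K * s + 4 * k + v) ≤ 8 * n := by nlinarith
    omega
  calc 2 * ((2 * k) ^ 6 * (2 * s) + (2 * k) ^ 2) = (2 * k) * (128 * k ^ 5 * s + 4 * k) := by ring
    _ ≤ (2 * k) * (n - v) := by
      rw [← hK]
      exact Nat.mul_le_mul_left _ h3

theorem main (n k : ℕ) (hk : (4 * k) ^ 10 ≤ n) (ℓ : Fin n → ℝ × ℝ × ℝ) (hg : GenPos ℓ) :
    ∃ S : Finset (Fin n), S.card = k ∧ DistinctAreas ℓ S := by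
  classical
  rcases Nat.eq_zero_or_pos k with hk0 | hk0
  · refine ⟨∅, by rw [hk0, card_empty], fun A B hA hB _ _ _ => ?_⟩
    rw [subset_empty.1 hA, subset_empty.1 hB]
  have hn : 0 < n := lt_of_lt_of_le (pow_pos (by omega) 10) hk
  have hdd : ∀ i j, i ≠ j → DD (ℓ i) (ℓ j) ≠ 0 := fun i j hij =>
    dd_ne _ _ (hg.1 i) (hg.2.1 i j hij)
  have hdt : ∀ i j x, i ≠ j → i ≠ x → j ≠ x → DT (ℓ i) (ℓ j) (ℓ x) ≠ 0 :=
    fun i j x hij hix hjx => dt_ne _ _ _ (hdd i j hij) (hg.2.2 i j x hij hix hjx)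
  obtain ⟨s, hs⟩ : ∃ s, s = Nat.sqrt (8 * n) + 1 := ⟨_, rfl⟩
  have hs8 : 8 * n ≤ s ^ 2 := by
    rw [hs, sq]
    exact (Nat.lt_succ_sqrt (8 * n)).le
  obtain ⟨T, hT⟩ : ∃ T : Finset (Fin n × Fin n), T = univ.filter fun p => p.1 < p.2 ∧
      ∃ lam, lam ≠ 0 ∧ s ≤ (R ℓ p.1 p.2 lam).card := ⟨_, rfl⟩
  have hTA : ∀ p ∈ T, ∃ A : Finset (Fin n), A.card = s ∧ ∃ lam, lam ≠ 0 ∧
      A ⊆ R ℓ p.1 p.2 lam := by
    intro p hp
    rw [hT, mem_filter] at hp
    obtain ⟨-, -, lam, hl, hc⟩ := hp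
    obtain ⟨A, hA1, hA2⟩ := exists_subset_card_eq hc
    exact ⟨A, hA2, lam, hl, hA1⟩
  choose! A hA1 hA2 using hTA
  have hT4 : 4 * T.card ≤ s := by
    refine fam_le hn T A s hA1 ?_ hs8
    intro p hp p' hp' hpp
    by_contra hcon
    push Not at hcon
    obtain ⟨lam, hl, hsub⟩ := hA2 p hp
    obtain ⟨lam', hl', hsub'⟩ := hA2 p' hp'
    rw [hT, mem_filter] at hp hp'
    have hlt := hp.2.1
    have hlt' := hp'.2.1
    have hz : ∀ x ∈ A p ∩ A p', x ∈ R ℓ p.1 p.2 lam ∧ x ∈ R ℓ p'.1 p'.2 lam' := by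
      intro x hx
      rw [mem_inter] at hx
      exact ⟨hsub hx.1, hsub' hx.2⟩
    have hm := meet_le ℓ (ℓ p.1) (ℓ p.2) (ℓ p'.1) (ℓ p'.2) lam lam' hl (hdd _ _ hlt.ne)
      (hdd _ _ hlt'.ne) (A p ∩ A p') hcon (fun x _ y _ hxy => hdd x y hxy)
      (fun x hx => hdd _ _ (Ne.symm ((mem_R _ _ _ _ _).1 (hz x hx).1).2.1))
      (fun x hx => ((mem_R _ _ _ _ _).1 (hz x hx).1).2.2)
      (fun x hx => ((mem_R _ _ _ _ _).1 (hz x hx).2).2.2)
    have e1 : p.1 = p'.1 ∨ p.1 = p'.2 := by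
      by_contra hne
      push Not at hne
      exact hdt p'.1 p'.2 p.1 hlt'.ne (Ne.symm hne.1) (Ne.symm hne.2) hm.1
    have e2 : p.2 = p'.1 ∨ p.2 = p'.2 := by
      by_contra hne
      push Not at hne
      exact hdt p'.1 p'.2 p.2 hlt'.ne (Ne.symm hne.1) (Ne.symm hne.2) hm.2
    apply hpp
    rcases e1 with e1 | e1 <;> rcases e2 with e2 | e2
    · rw [e1, e2] at hlt
      exact absurd hlt (lt_irrefl _)
    · exact Prod.ext e1 e2
    · rw [e1, e2] at hlt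
      exact absurd (hlt.trans hlt') (lt_irrefl _)
    · rw [e1, e2] at hlt
      exact absurd hlt (lt_irrefl _)
  obtain ⟨V, hV⟩ : ∃ V : Finset (Fin n), V = T.image Prod.fst ∪ T.image Prod.snd := ⟨_, rfl⟩
  have hVc : 2 * V.card ≤ s := by
    have h1 : V.card ≤ T.card + T.card := by
      rw [hV]
      exact (card_union_le _ _).trans (add_le_add card_image_le card_image_le)
    omega
  have hcard : Fintype.card {i : Fin n // i ∉ V} = n - V.card := by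
    rw [Fintype.card_of_subtype Vᶜ (fun x => mem_compl), card_compl, Fintype.card_fin]
  have har := arith n k s V.card hk hk0 hs hVc
  have hVn : 0 < n - V.card := by
    by_contra h0
    have h1 : n - V.card = 0 := by omega
    rw [h1, mul_zero] at har
    have h2 : 0 < (2 * k) ^ 2 := by positivity
    omega
  have hpoor : ∀ a b : Fin n, a ∉ V → b ∉ V → a ≠ b → ∀ lam, lam ≠ 0 →
      (R ℓ a b lam).card ≤ s := by
    intro a b ha hb hab lam hl
    by_contra hcon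
    push Not at hcon
    rcases lt_or_gt_of_ne hab with h | h
    · apply ha
      rw [hV, mem_union]
      left
      rw [mem_image]
      refine ⟨(a, b), ?_, rfl⟩
      rw [hT, mem_filter]
      exact ⟨mem_univ _, h, lam, hl, hcon.le⟩
    · apply ha
      rw [hV, mem_union]
      right
      rw [mem_image]
      refine ⟨(b, a), ?_, rfl⟩
      rw [hT, mem_filter]
      exact ⟨mem_univ _, h, lam, hl, by rw [R_symm]; exact hcon.le⟩
  obtain ⟨S, hS1, hS2⟩ := select (α := {i : Fin n // i ∉ V})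
    (fun a b x => ar (ℓ a) (ℓ b) (ℓ x)) (2 * s) (2 * k) (fun a b x => ar1 _ _ _)
    (fun a b x => ar2 _ _ _) (by rw [hcard]; exact hVn) (by
      intro a b hab t
      have hab' : (a : Fin n) ≠ b := fun h => hab (Subtype.ext h)
      rcases eq_or_ne t 0 with ht | ht
      · refine le_trans (le_of_eq ?_) (Nat.zero_le _)
        rw [card_eq_zero, filter_eq_empty_iff]
        rintro x - ⟨hxa, hxb, hx⟩
        have hxa' : (x : Fin n) ≠ a := fun h => hxa (Subtype.ext h)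
        have hxb' : (x : Fin n) ≠ b := fun h => hxb (Subtype.ext h)
        rw [ht] at hx
        unfold ar at hx
        rw [div_eq_zero_iff] at hx
        rcases hx with hx | hx
        · exact hdt a b x hab' (Ne.symm hxa') (Ne.symm hxb') (pow_eq_zero_iff (two_ne_zero) |>.1 hx)
        · have h7 := mul_ne_zero (mul_ne_zero (hdd a b hab') (hdd b x (Ne.symm hxb')))
            (hdd x a hxa')
          have h8 := abs_pos.2 h7
          linarith
      · have hl : 2 * t * |DD (ℓ a) (ℓ b)| ≠ 0 :=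
          mul_ne_zero (mul_ne_zero two_ne_zero ht) (abs_pos.2 (hdd a b hab')).ne'
        have h1 := hpoor a b a.2 b.2 hab' _ hl
        have h2 := hpoor a b a.2 b.2 hab' _ (neg_ne_zero.2 hl)
        have h3 : ((univ.filter fun x : {i : Fin n // i ∉ V} => x ≠ a ∧ x ≠ b ∧
            ar (ℓ a) (ℓ b) (ℓ x) = t).image Subtype.val).card ≤
            (R ℓ a b (2 * t * |DD (ℓ a) (ℓ b)|) ∪ R ℓ a b (-(2 * t * |DD (ℓ a) (ℓ b)|))).card := by
          apply card_le_card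
          intro y hy
          rw [mem_image] at hy
          obtain ⟨x, hx, rfl⟩ := hy
          rw [mem_filter] at hx
          obtain ⟨-, hxa, hxb, hx⟩ := hx
          have hxa' : (x : Fin n) ≠ a := fun h => hxa (Subtype.ext h)
          have hxb' : (x : Fin n) ≠ b := fun h => hxb (Subtype.ext h)
          rw [mem_union]
          exact ar_mem ℓ a b x t (hdd a b hab') (hdd b x (Ne.symm hxb')) (hdd x a hxa') hxa' hxb' hx
        rw [card_image_of_injective _ Subtype.val_injective] at h3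
        have h4 := card_union_le (R ℓ a b (2 * t * |DD (ℓ a) (ℓ b)|))
          (R ℓ a b (-(2 * t * |DD (ℓ a) (ℓ b)|)))
        omega) (by
      rw [hcard]
      exact har)
  obtain ⟨S', hS'1, hS'2⟩ := exists_subset_card_eq (show k ≤ S.card by omega)
  refine ⟨S'.image Subtype.val, ?_, ?_⟩
  · rw [card_image_of_injective _ Subtype.val_injective, hS'2]
  · intro A B hA hB t hAt hBt
    obtain ⟨i, j, l, hij, hil, hjl, rfl, p, q, r, ⟨h1, h2⟩, ⟨h3, h4⟩, ⟨h5, h6⟩, ht⟩ := hAt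
    obtain ⟨i', j', l', hij', hil', hjl', rfl, p', q', r', ⟨h1', h2'⟩, ⟨h3', h4'⟩, ⟨h5', h6'⟩,
      ht'⟩ := hBt
    rw [area_eq _ _ _ p q r (hdd i j hij) (hdd j l hjl) (hdd l i (Ne.symm hil)) h1 h2 h3 h4 h5 h6]
      at ht
    rw [area_eq _ _ _ p' q' r' (hdd i' j' hij') (hdd j' l' hjl') (hdd l' i' (Ne.symm hil'))
      h1' h2' h3' h4' h5' h6'] at ht'
    have hmem : ∀ y ∈ S'.image Subtype.val, ∃ x ∈ S, (x : Fin n) = y := by
      intro y hy
      rw [mem_image] at hy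
      obtain ⟨x, hx, hxy⟩ := hy
      exact ⟨x, hS'1 hx, hxy⟩
    obtain ⟨a, ha, rfl⟩ := hmem i (hA (by simp))
    obtain ⟨b, hb, rfl⟩ := hmem j (hA (by simp))
    obtain ⟨x, hx, rfl⟩ := hmem l (hA (by simp))
    obtain ⟨a', ha', rfl⟩ := hmem i' (hB (by simp))
    obtain ⟨b', hb', rfl⟩ := hmem j' (hB (by simp))
    obtain ⟨x', hx', rfl⟩ := hmem l' (hB (by simp))
    have hfin := hS2 a ha b hb x hx a' ha' b' hb' x' hx' (fun h => hij (congrArg _ h))
      (fun h => hil (congrArg _ h)) (fun h => hjl (congrArg _ h)) (fun h => hij' (congrArg _ h))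
      (fun h => hil' (congrArg _ h)) (fun h => hjl' (congrArg _ h)) (ht.symm.trans ht')
    have h9 := congrArg (fun Y : Finset {i : Fin n // i ∉ V} => Y.image Subtype.val) hfin
    simp only [image_insert, image_singleton] at h9
    exact h9

end Pool.Agent.H726.LA
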